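import Mathlib
import Pool.Agent.R975.King
import Pool.Agent.Y560.BE.Erg

/-!
# One-player games on a group: total payoffs of words of actions

`pay x s z l` is the total payoff of the word `l` of actions from the state `z`, `best x s z M` is
the largest total payoff over all words in which every action `a` occurs exactly `M.count a` times.
For fixed `M` the sequence `best x s z (m • M)` is superadditive along the deterministic
displacement of `M`; the best total payoff over all words of length `n` is, up to `o (n)`, the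
largest of these for finitely many `M`.
-/

set_option autoImplicit false

namespace Pool.Agent.U517.PG

open MeasureTheory ProbabilityTheory Filter Topology

variable {S A : Type} [AddCommGroup S]

/-- total payoff of a word of actions -/
def pay (x : S → A → ℝ) (s : A → S) : S → List A → ℝ
  | _, [] => 0
  | z, a :: l => x z a + pay x s (z + s a) l

theorem pay_append (x : S → A → ℝ) (s : A → S) (z : S) (l l' : List A) :
    pay x s z (l ++ l') = pay x s z l + pay x s (z + (l.map s).sum) l' := by
  induction l generalizing z with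
  | nil => simp [pay]
  | cons a l ih => simp [pay, ih, add_assoc]

theorem pay_nonneg {x : S → A → ℝ} {s : A → S} (hx : ∀ z a, 0 ≤ x z a) (z : S) (l : List A) :
    0 ≤ pay x s z l := by
  induction l generalizing z with
  | nil => simp [pay]
  | cons a l ih => exact add_nonneg (hx z a) (ih _)

theorem pay_le {x : S → A → ℝ} {s : A → S} {B : ℝ} (hx : ∀ z a, x z a ≤ B) (z : S) (l : List A) :
    pay x s z l ≤ B * l.length := by
  induction l generalizing z with
  | nil => simp [pay]
  | cons a l ih =>
    have h1 := hx z a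
    have h2 := ih (z + s a)
    simp only [pay, List.length_cons, Nat.cast_add, Nat.cast_one]
    linarith

theorem pay_shift (x : S → A → ℝ) (s : A → S) (w z : S) (l : List A) :
    pay (fun y a => x (y + w) a) s z l = pay x s (z + w) l := by
  induction l generalizing z with
  | nil => simp [pay]
  | cons a l ih =>
    simp only [pay, ih]
    rw [add_right_comm z (s a) w]

section best

variable [DecidableEq A]

/-- the words with a given multiset of letters -/
noncomputable def words (M : Multiset A) : Finset (List A) := M.toList.permutations.toFinset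

theorem mem_words {M : Multiset A} {l : List A} : l ∈ words M ↔ (l : Multiset A) = M := by
  unfold words
  rw [List.mem_toFinset, List.mem_permutations, ← Multiset.coe_eq_coe, Multiset.coe_toList]

theorem words_nonempty (M : Multiset A) : (words M).Nonempty :=
  ⟨M.toList, mem_words.2 (Multiset.coe_toList M)⟩

/-- the best total payoff over the words with a given multiset of letters -/
noncomputable def best (x : S → A → ℝ) (s : A → S) (z : S) (M : Multiset A) : ℝ :=
  (words M).sup' (words_nonempty M) fun l => pay x s z l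

theorem pay_le_best (x : S → A → ℝ) (s : A → S) (z : S) {M : Multiset A} {l : List A}
    (h : (l : Multiset A) = M) : pay x s z l ≤ best x s z M :=
  Finset.le_sup' (f := fun l => pay x s z l) (mem_words.2 h)

theorem exists_best (x : S → A → ℝ) (s : A → S) (z : S) (M : Multiset A) :
    ∃ l : List A, (l : Multiset A) = M ∧ best x s z M = pay x s z l := by
  obtain ⟨l, hl, h⟩ := Finset.exists_mem_eq_sup' (words_nonempty M) (fun l => pay x s z l)
  exact ⟨l, mem_words.1 hl, h⟩

theorem best_add (x : S → A → ℝ) (s : A → S) (z : S) (M M' : Multiset A) :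
    best x s z M + best x s (z + (M.map s).sum) M' ≤ best x s z (M + M') := by
  obtain ⟨l, hl, h⟩ := exists_best x s z M
  obtain ⟨l', hl', h'⟩ := exists_best x s (z + (M.map s).sum) M'
  rw [h, h']
  have h1 : (M.map s).sum = (l.map s).sum := by
    rw [← hl, Multiset.map_coe, Multiset.sum_coe]
  rw [h1, ← pay_append]
  apply pay_le_best
  rw [← Multiset.coe_add, hl, hl']

theorem best_nonneg {x : S → A → ℝ} {s : A → S} (hx : ∀ z a, 0 ≤ x z a) (z : S)
    (M : Multiset A) : 0 ≤ best x s z M := by
  obtain ⟨l, -, h⟩ := exists_best x s z M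
  rw [h]
  exact pay_nonneg hx z l

theorem best_le {x : S → A → ℝ} {s : A → S} {B : ℝ} (hx : ∀ z a, x z a ≤ B) (z : S)
    (M : Multiset A) : best x s z M ≤ B * M.card := by
  obtain ⟨l, hl, h⟩ := exists_best x s z M
  rw [h, ← hl, Multiset.coe_card]
  exact pay_le hx z l

theorem best_shift (x : S → A → ℝ) (s : A → S) (w z : S) (M : Multiset A) :
    best (fun y a => x (y + w) a) s z M = best x s (z + w) M := by
  unfold best
  simp only [pay_shift]

/-- the multiset with given multiplicities -/
def mk [Fintype A] (c : A → ℕ) : Multiset A := ∑ a, c a • ({a} : Multiset A)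

theorem count_mk [Fintype A] (c : A → ℕ) (a : A) : (mk c).count a = c a := by
  unfold mk
  rw [Multiset.count_sum']
  simp only [Multiset.count_nsmul, Multiset.count_singleton, mul_ite, mul_one, mul_zero]
  simp

omit [DecidableEq A] in
theorem card_mk [Fintype A] (c : A → ℕ) : (mk c).card = ∑ a, c a := by
  unfold mk
  simp

/-- every word of length `n` extends to a word in the class of `m • mk c` -/
theorem cover [Fintype A] [Nonempty A] {x : S → A → ℝ} {s : A → S} (hx : ∀ z a, 0 ≤ x z a) (z : S)
    {R m : ℕ} (hm : 1 ≤ m) (l : List A) (hl : l.length ≤ m * (Fintype.card A * R)) :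
    ∃ c : A → ℕ, mk c ≠ 0 ∧ (∑ a, c a) ≤ Fintype.card A * (R + 1) ∧
      pay x s z l ≤ best x s z (m • mk c) := by
  refine ⟨fun a => l.count a / m + 1, ?_, ?_, ?_⟩
  · intro h
    obtain ⟨a⟩ := (inferInstance : Nonempty A)
    have h1 := count_mk (fun a => l.count a / m + 1) a
    rw [h] at h1
    simp at h1
  · rw [Finset.sum_add_distrib]
    have h1 : ∑ a, l.count a = l.length := by
      have := Multiset.sum_count_eq_card (s := (Finset.univ : Finset A)) (m := (l : Multiset A))
        (fun a _ => Finset.mem_univ a)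
      simpa using this
    have h2 : m * ∑ a, l.count a / m ≤ l.length := by
      rw [← h1, Finset.mul_sum]
      exact Finset.sum_le_sum fun a _ => Nat.mul_div_le _ _
    have h3 : ∑ a, l.count a / m ≤ Fintype.card A * R :=
      Nat.le_of_mul_le_mul_left (h2.trans hl) hm
    simp only [Finset.sum_const, Finset.card_univ, smul_eq_mul, mul_one]
    nlinarith
  · set M := m • mk (fun a => l.count a / m + 1) with hM
    have hle : (l : Multiset A) ≤ M := by
      rw [Multiset.le_iff_count]
      intro a
      rw [hM, Multiset.count_nsmul, count_mk, Multiset.coe_count]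
      exact (Nat.lt_mul_div_succ _ hm).le
    have h1 : ((l ++ (M - (l : Multiset A)).toList : List A) : Multiset A) = M := by
      rw [← Multiset.coe_add, Multiset.coe_toList]
      exact add_tsub_cancel_of_le hle
    refine le_trans ?_ (pay_le_best x s z h1)
    rw [pay_append]
    have := pay_nonneg (s := s) hx (z + (l.map s).sum) (M - (l : Multiset A)).toList
    linarith

/-- The deterministic part. -/
theorem det [Fintype A] [Nonempty A] {x : S → A → ℝ} {s : A → S} {B : ℝ}
    (h0 : ∀ z a, 0 ≤ x z a) (hB : ∀ z a, x z a ≤ B) (z : S)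
    (hlim : ∀ M : Multiset A, M ≠ 0 →
      ∃ y : ℝ, Tendsto (fun m : ℕ => best x s z (m • M) / m) atTop (𝓝 y))
    (W : ℕ → ℝ)
    (hW : ∀ n, IsGreatest {r | ∃ l : List A, l.length = n ∧ pay x s z l = r} (W n)) :
    ∃ v : ℝ, Tendsto (fun n : ℕ => W n / n) atTop (𝓝 v) := by
  classical
  obtain ⟨a0⟩ := (inferInstance : Nonempty A)
  have hB0 : 0 ≤ B := (h0 z a0).trans (hB z a0)
  choose! y hy using hlim
  have hcard : ∀ M : Multiset A, M ≠ 0 → (0 : ℝ) < M.card := fun M hM => by
    have := Multiset.card_pos.2 hM
    exact_mod_cast this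
  have hy0 : ∀ M, M ≠ 0 → 0 ≤ y M := fun M hM =>
    ge_of_tendsto' (hy M hM) fun m => div_nonneg (best_nonneg h0 z _) (Nat.cast_nonneg m)
  have hyB : ∀ M, M ≠ 0 → y M ≤ B * M.card := fun M hM => by
    refine le_of_tendsto (hy M hM) ?_
    filter_upwards [eventually_ge_atTop 1] with m hm
    have hm' : (0 : ℝ) < m := by exact_mod_cast hm
    rw [div_le_iff₀ hm']
    have := best_le (s := s) hB z (m • M)
    rw [Multiset.card_nsmul] at this
    push_cast at this
    nlinarith [this]
  set T : Set ℝ := {r | ∃ M : Multiset A, M ≠ 0 ∧ y M / M.card = r} with hT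
  have hTb : BddAbove T := by
    refine ⟨B, ?_⟩
    rintro r ⟨M, hM, rfl⟩
    rw [div_le_iff₀ (hcard M hM)]
    exact hyB M hM
  have hTn : T.Nonempty := ⟨_, {a0}, by simp, rfl⟩
  set v := sSup T with hv
  have hyv : ∀ M, M ≠ 0 → y M ≤ v * M.card := fun M hM => by
    rw [← div_le_iff₀ (hcard M hM)]
    exact le_csSup hTb ⟨M, hM, rfl⟩
  have hv0 : 0 ≤ v := by
    have h1 := hyv {a0} (by simp)
    have h2 := hy0 {a0} (by simp)
    simp at h1
    linarith
  -- lower bound
  have hlow : ∀ δ > 0, ∀ᶠ n : ℕ in atTop, v - δ ≤ W n / n := by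
    intro δ hδ
    obtain ⟨r, ⟨M, hM, rfl⟩, hr⟩ := exists_lt_of_lt_csSup hTn (show v - δ < sSup T by linarith)
    set N := M.card with hN
    have hN0 : N ≠ 0 := (Multiset.card_pos.2 hM).ne'
    have hNpos : (0 : ℝ) < N := hcard M hM
    have hk : Tendsto (fun n : ℕ => n / N) atTop atTop := Nat.tendsto_div_const_atTop hN0
    have h1 : Tendsto (fun n : ℕ => best x s z ((n / N) • M) / ((n / N : ℕ) : ℝ)) atTop
        (𝓝 (y M)) := (hy M hM).comp hk
    have h2 : Tendsto (fun n : ℕ => (((n / N : ℕ) : ℝ)) / (n : ℝ)) atTop (𝓝 (1 / N)) := by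
      have h3 : Tendsto (fun n : ℕ => (1 : ℝ) / N - 1 / n) atTop (𝓝 (1 / N - 0)) :=
        tendsto_const_nhds.sub tendsto_one_div_atTop_nhds_zero_nat
      rw [sub_zero] at h3
      refine tendsto_of_tendsto_of_tendsto_of_le_of_le' h3 tendsto_const_nhds ?_ ?_
      · filter_upwards [eventually_ge_atTop 1] with n hn
        have hn' : (0 : ℝ) < n := by exact_mod_cast hn
        have h4 : (n : ℝ) ≤ ((n / N : ℕ) + 1) * N := by
          have h5 : n < N * (n / N + 1) := Nat.lt_mul_div_succ n (Nat.pos_of_ne_zero hN0)
          have h6 : (n : ℝ) < N * ((n / N : ℕ) + 1) := by exact_mod_cast h5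
          linarith
        rw [div_sub_div _ _ hNpos.ne' hn'.ne', div_le_div_iff₀ (by positivity) hn']
        nlinarith
      · filter_upwards [eventually_ge_atTop 1] with n hn
        have hn' : (0 : ℝ) < n := by exact_mod_cast hn
        rw [div_le_div_iff₀ hn' hNpos, one_mul]
        have : n / N * N ≤ n := Nat.div_mul_le_self n N
        exact_mod_cast this
    have h3 := (h1.mul h2).eventually (lt_mem_nhds (show v - δ < y M * (1 / N) by
      rw [mul_one_div]; exact hr))
    filter_upwards [h3, eventually_ge_atTop N] with n hn hnN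
    refine hn.le.trans ?_
    have hn0 : (0 : ℝ) < n := by
      have : 0 < n := lt_of_lt_of_le (Nat.pos_of_ne_zero hN0) hnN
      exact_mod_cast this
    have hk0 : (((n / N : ℕ) : ℝ)) ≠ 0 := by
      have : 0 < n / N := Nat.div_pos hnN (Nat.pos_of_ne_zero hN0)
      exact_mod_cast this.ne'
    rw [div_mul_div_cancel₀ hk0]
    refine div_le_div_of_nonneg_right ?_ hn0.le
    obtain ⟨l, hl, h⟩ := exists_best x s z ((n / N) • M)
    rw [h]
    have hlen : l.length = n / N * N := by
      rw [← Multiset.coe_card, hl, Multiset.card_nsmul]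
    have hle : l.length ≤ n := by rw [hlen]; exact Nat.div_mul_le_self n N
    have h5 : pay x s z l ≤ pay x s z (l ++ List.replicate (n - l.length) a0) := by
      rw [pay_append]
      have := pay_nonneg (s := s) h0 (z + (l.map s).sum) (List.replicate (n - l.length) a0)
      linarith
    refine h5.trans ((hW n).2 ⟨_, ?_, rfl⟩)
    simp
    omega
  -- upper bound
  have hup : ∀ δ > 0, ∀ᶠ n : ℕ in atTop, W n / n ≤ v + δ := by
    intro δ hδ
    set K := Fintype.card A with hK
    have hK1 : 1 ≤ K := Fintype.card_pos
    obtain ⟨R, hR⟩ := exists_nat_gt (2 * (v + 1) / δ)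
    have hRpos : (0 : ℝ) < R := lt_of_le_of_lt (by positivity) hR
    have hR1 : 1 ≤ R := by
      have : 0 < R := by exact_mod_cast hRpos
      exact this
    set N := K * (R + 1) with hN
    have hfin : ∀ c : A → Fin (N + 1), ∀ᶠ m : ℕ in atTop,
        mk (fun a => (c a : ℕ)) ≠ 0 → best x s z (m • mk (fun a => (c a : ℕ))) / m ≤
          y (mk (fun a => (c a : ℕ))) + 1 := by
      intro c
      by_cases hc : mk (fun a => (c a : ℕ)) = 0
      · exact Eventually.of_forall fun m h => absurd hc h
      · filter_upwards [(hy _ hc).eventually (gt_mem_nhds (lt_add_one _))] with m hm _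
        exact hm.le
    have hall := eventually_all.2 hfin
    set mm : ℕ → ℕ := fun n => n / (K * R) + 1 with hmm
    have hKR : 0 < K * R := Nat.mul_pos hK1 hR1
    have hmt : Tendsto mm atTop atTop :=
      (tendsto_add_atTop_nat 1).comp (Nat.tendsto_div_const_atTop hKR.ne')
    have hall' := hmt.eventually hall
    obtain ⟨n1, hn1⟩ := exists_nat_gt (2 * (v * N + 1) / δ)
    filter_upwards [hall', eventually_ge_atTop (max 1 n1)] with n hn hn2
    have hn1' : 1 ≤ n := (le_max_left _ _).trans hn2
    have hnpos : (0 : ℝ) < n := by exact_mod_cast hn1'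
    obtain ⟨l, hl, hlW⟩ := (hW n).1
    have hlt : n < K * R * mm n := Nat.lt_mul_div_succ n hKR
    obtain ⟨c, hc0, hcN, hc⟩ := cover (R := R) (m := mm n) (s := s) h0 z (Nat.le_add_left 1 _) l
      (by rw [hl, mul_comm (mm n)]; exact hlt.le)
    have hcle : ∀ a, c a < N + 1 := fun a =>
      Nat.lt_succ_of_le ((Finset.single_le_sum (f := c) (fun _ _ => Nat.zero_le _)
        (Finset.mem_univ a)).trans hcN)
    have h1 := hn (fun a => ⟨c a, hcle a⟩) hc0
    have h2 := hyv (mk c) hc0
    have h3 : ((mk c).card : ℝ) ≤ N := by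
      rw [card_mk]
      exact_mod_cast hcN
    have hmpos : (0 : ℝ) < mm n := by
      have : 0 < mm n := Nat.succ_pos _
      exact_mod_cast this
    simp only at h1
    rw [div_le_iff₀ hmpos] at h1
    have h4 : W n ≤ (v * N + 1) * mm n := by
      rw [← hlW]
      refine (hc.trans h1).trans ?_
      refine mul_le_mul_of_nonneg_right ?_ hmpos.le
      nlinarith [mul_le_mul_of_nonneg_left h3 hv0]
    have h5 : (mm n : ℝ) ≤ n / (K * R) + 1 := by
      rw [hmm]
      push_cast
      have : ((n / (K * R) : ℕ) : ℝ) ≤ (n : ℝ) / ((K * R : ℕ) : ℝ) := Nat.cast_div_le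
      push_cast at this
      linarith
    have hKpos : (1 : ℝ) ≤ K := by exact_mod_cast hK1
    have hvN : 0 ≤ v * N + 1 := by positivity
    have h6 : W n / n ≤ (v * N + 1) / (K * R) + (v * N + 1) / n := by
      rw [div_le_iff₀ hnpos]
      have h7 : ((v * N + 1) / (K * R) + (v * N + 1) / n) * n
          = (v * N + 1) * (n / (K * R) + 1) := by
        field_simp
      rw [h7]
      exact h4.trans (mul_le_mul_of_nonneg_left h5 hvN)
    have h8 : (v * N + 1) / (K * R) ≤ v + δ / 2 := by
      have hNr : (N : ℝ) = K * (R + 1) := by rw [hN]; push_cast; ring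
      have hKRpos : (0 : ℝ) < K * R := by positivity
      rw [div_le_iff₀ hKRpos, hNr]
      have h9 : 2 * (v + 1) < δ * R := by
        rw [div_lt_iff₀ hδ] at hR
        linarith
      nlinarith [mul_le_mul_of_nonneg_left h9.le (show (0 : ℝ) ≤ K by linarith)]
    have h10 : (v * N + 1) / n ≤ δ / 2 := by
      rw [div_le_iff₀ hnpos]
      rw [div_lt_iff₀ hδ] at hn1
      have : (n1 : ℝ) ≤ n := by exact_mod_cast (le_max_right _ _).trans hn2
      nlinarith
    linarith
  refine ⟨v, ?_⟩
  rw [Metric.tendsto_atTop']
  intro ε hε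
  obtain ⟨N1, hN1⟩ := eventually_atTop.1 (hlow (ε / 2) (by positivity))
  obtain ⟨N2, hN2⟩ := eventually_atTop.1 (hup (ε / 2) (by positivity))
  refine ⟨max N1 N2, fun n hn => ?_⟩
  have h3 := hN1 n ((le_max_left _ _).trans hn.le)
  have h4 := hN2 n ((le_max_right _ _).trans hn.le)
  rw [Real.dist_eq, abs_lt]
  constructor <;> linarith

end best

end Pool.Agent.U517.PG
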