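import Pool.Agent.U517.PG.Meas

/-!
# Percolation games (definitions) and the limit value of one-player games
-/

set_option autoImplicit false

namespace Pool.Agent.U517.PG

open MeasureTheory ProbabilityTheory Filter Topology

/-- A percolation game on `ℤ^d` with action sets `I` (Player 1, maximiser) and `J` (Player 2,
minimiser) over the probability space `(Ω, P)`. -/
structure PercolationGame (d : ℕ) (I J : Type) {Ω : Type*} [MeasurableSpace Ω]
    (P : Measure Ω) where
  /-- the shifts of the environment -/
  τ : (Fin d → ℤ) → Ω → Ω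
  τ_mp : ∀ z, MeasurePreserving (τ z) P P
  τ_add : ∀ z z', τ (z + z') = τ z ∘ τ z'
  τ_ergodic : ∀ F : Set Ω, MeasurableSet F → (∀ z, τ z '' F = F) → P F = 0 ∨ P F = 1
  /-- the payoffs -/
  g : Ω → (Fin d → ℤ) → I → J → ℝ
  g_meas : ∀ z i j, Measurable fun ω => g ω z i j
  g_bdd : ∃ C : ℝ, ∀ ω z i j, |g ω z i j| ≤ C
  g_stat : ∀ ω z z' i j, g (τ z ω) z' i j = g ω (z + z') i j
  /-- the transitions -/
  q : I → J → (Fin d → ℤ)

/-- Strategies of Player 1: a history (the list of the pairs of actions played so far) is mapped to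
an action. -/
abbrev Strat1 (I J : Type) := List (I × J) → I

/-- Strategies of Player 2: they may also depend on the action just chosen by Player 1. -/
abbrev Strat2 (I J : Type) := List (I × J) → I → J

/-- The history after `n` stages. -/
def hist {I J : Type} (σ : Strat1 I J) (θ : Strat2 I J) : ℕ → List (I × J)
  | 0 => []
  | n + 1 => hist σ θ n ++ [(σ (hist σ θ n), θ (hist σ θ n) (σ (hist σ θ n)))]

namespace PercolationGame

variable {d : ℕ} {I J : Type} {Ω : Type*} [MeasurableSpace Ω] {P : Measure Ω}

/-- The state after the history `h`, from the initial state `z`. -/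
def state (G : PercolationGame d I J P) (z : Fin d → ℤ) (h : List (I × J)) : Fin d → ℤ :=
  z + (h.map fun p => G.q p.1 p.2).sum

/-- The average payoff of the first `n` stages. -/
noncomputable def payoff (G : PercolationGame d I J P) (ω : Ω) (n : ℕ) (z : Fin d → ℤ)
    (σ : Strat1 I J) (θ : Strat2 I J) : ℝ :=
  (∑ m ∈ Finset.range n, G.g ω (G.state z (hist σ θ m)) (σ (hist σ θ m))
    (θ (hist σ θ m) (σ (hist σ θ m)))) / n

/-- The value of the `n`-stage game with initial state `z` in the environment `ω`: the max-min of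
the average payoff. -/
noncomputable def value (G : PercolationGame d I J P) (ω : Ω) (n : ℕ) (z : Fin d → ℤ) : ℝ :=
  ⨆ σ : Strat1 I J, ⨅ θ : Strat2 I J, G.payoff ω n z σ θ

/-- The payoffs are i.i.d.: the random vectors `(g(z,i,j))_{i,j}`, `z ∈ ℤ^d`, are independent and
identically distributed. -/
def IID (G : PercolationGame d I J P) : Prop :=
  iIndepFun (fun (z : Fin d → ℤ) (ω : Ω) => G.g ω z) P ∧
    ∀ z z' : Fin d → ℤ, IdentDistrib (fun ω => G.g ω z) (fun ω => G.g ω z') P P

/-- One of the action sets is a singleton. -/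
def OnePlayer (_G : PercolationGame d I J P) : Prop := Nat.card I = 1 ∨ Nat.card J = 1

/-- `v_n(z)` converges almost surely, for each state `z`. -/
def HasLimitValue (G : PercolationGame d I J P) : Prop :=
  ∀ z : Fin d → ℤ, ∀ᵐ ω ∂P, ∃ v : ℝ, Tendsto (fun n : ℕ => G.value ω n z) atTop (𝓝 v)

end PercolationGame

/-! ### Histories and words -/

section hist

variable {I J : Type}

theorem length_hist (σ : Strat1 I J) (θ : Strat2 I J) (n : ℕ) : (hist σ θ n).length = n := by
  induction n with
  | zero => rfl
  | succ n ih => simp [hist, ih]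

theorem exists_strat1 [Nonempty I] [Subsingleton J] (l : List (I × J)) :
    ∃ σ : Strat1 I J, ∀ θ : Strat2 I J, hist σ θ l.length = l := by
  classical
  obtain ⟨i0⟩ := (inferInstance : Nonempty I)
  refine ⟨fun h => if hh : h.length < l.length then (l[h.length]).1 else i0, fun θ => ?_⟩
  have key : ∀ n, n ≤ l.length →
      hist (fun h => if hh : h.length < l.length then (l[h.length]).1 else i0) θ n = l.take n := by
    intro n
    induction n with
    | zero => intro _; simp [hist]
    | succ n ih =>
      intro hn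
      have hn' : n < l.length := hn
      rw [hist, ih hn'.le]
      have h1 : (l.take n).length = n := by simp; omega
      rw [List.take_succ_eq_append_getElem hn']
      congr 1
      simp only [List.cons.injEq, and_true]
      refine Prod.ext ?_ (Subsingleton.elim _ _)
      simp only [h1]
      rw [dif_pos hn']
  have := key l.length le_rfl
  rw [List.take_length] at this
  exact this

theorem exists_strat2 [Nonempty J] [Subsingleton I] (l : List (I × J)) :
    ∃ θ : Strat2 I J, ∀ σ : Strat1 I J, hist σ θ l.length = l := by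
  classical
  obtain ⟨j0⟩ := (inferInstance : Nonempty J)
  refine ⟨fun h _ => if hh : h.length < l.length then (l[h.length]).2 else j0, fun σ => ?_⟩
  have key : ∀ n, n ≤ l.length →
      hist σ (fun h _ => if hh : h.length < l.length then (l[h.length]).2 else j0) n
        = l.take n := by
    intro n
    induction n with
    | zero => intro _; simp [hist]
    | succ n ih =>
      intro hn
      have hn' : n < l.length := hn
      rw [hist, ih hn'.le]
      have h1 : (l.take n).length = n := by simp; omega
      rw [List.take_succ_eq_append_getElem hn']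
      congr 1
      simp only [List.cons.injEq, and_true]
      refine Prod.ext (Subsingleton.elim _ _) ?_
      simp only [h1]
      rw [dif_pos hn']
  have := key l.length le_rfl
  rw [List.take_length] at this
  exact this

end hist

section main

variable {d : ℕ} {I J : Type} {Ω : Type*} [MeasurableSpace Ω] {P : Measure Ω}

/-- the payoffs as a function of pairs of actions -/
def fld (G : PercolationGame d I J P) (ω : Ω) : (Fin d → ℤ) → (I × J) → ℝ :=
  fun z a => G.g ω z a.1 a.2

/-- the displacements -/
def stp (G : PercolationGame d I J P) : (I × J) → (Fin d → ℤ) := fun a => G.q a.1 a.2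

theorem payoff_eq (G : PercolationGame d I J P) (ω : Ω) (n : ℕ) (z : Fin d → ℤ)
    (σ : Strat1 I J) (θ : Strat2 I J) :
    G.payoff ω n z σ θ = pay (fld G ω) (stp G) z (hist σ θ n) / n := by
  unfold PercolationGame.payoff
  congr 1
  induction n with
  | zero => simp [hist, pay]
  | succ n ih =>
    rw [Finset.sum_range_succ, ih, hist, pay_append]
    congr 1
    simp only [pay, add_zero]
    rfl

theorem pay_add_const {S A : Type} [AddCommGroup S] (x : S → A → ℝ) (s : A → S) (C : ℝ) (z : S)
    (l : List A) : pay (fun z a => x z a + C) s z l = pay x s z l + C * l.length := by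
  induction l generalizing z with
  | nil => simp [pay]
  | cons a l ih =>
    simp only [pay, ih, List.length_cons, Nat.cast_add, Nat.cast_one]
    ring

theorem pay_const_sub {S A : Type} [AddCommGroup S] (x : S → A → ℝ) (s : A → S) (C : ℝ) (z : S)
    (l : List A) : pay (fun z a => C - x z a) s z l = C * l.length - pay x s z l := by
  induction l generalizing z with
  | nil => simp [pay]
  | cons a l ih =>
    simp only [pay, ih, List.length_cons, Nat.cast_add, Nat.cast_one]
    ring

/-- the best total payoff of a word of length `n` -/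
noncomputable def W {S A : Type} [AddCommGroup S] (x : S → A → ℝ) (s : A → S) (z : S) (n : ℕ) :
    ℝ := sSup {r | ∃ l : List A, l.length = n ∧ pay x s z l = r}

theorem W_greatest {S A : Type} [AddCommGroup S] [Finite A] [Nonempty A] (x : S → A → ℝ)
    (s : A → S) (z : S) (n : ℕ) :
    IsGreatest {r | ∃ l : List A, l.length = n ∧ pay x s z l = r} (W x s z n) := by
  have hfin : {r | ∃ l : List A, l.length = n ∧ pay x s z l = r}.Finite :=
    (List.finite_length_eq A n).image (fun l => pay x s z l)
  have hne : {r | ∃ l : List A, l.length = n ∧ pay x s z l = r}.Nonempty := by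
    obtain ⟨a⟩ := (inferInstance : Nonempty A)
    exact ⟨_, List.replicate n a, by simp, rfl⟩
  exact ⟨hne.csSup_mem hfin, fun r hr => le_csSup hfin.bddAbove hr⟩

theorem value_max [Finite I] [Nonempty I] [Finite J] [Nonempty J] [Subsingleton J]
    (G : PercolationGame d I J P) (ω : Ω) {n : ℕ} (hn : 1 ≤ n) (z : Fin d → ℤ) (C : ℝ) :
    G.value ω n z = W (fun z a => fld G ω z a + C) (stp G) z n / n - C := by
  have hn' : (0 : ℝ) < n := by exact_mod_cast hn
  have hg := W_greatest (fun z a => fld G ω z a + C) (stp G) z n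
  have hfin : Finite (Strat2 I J) := Finite.of_subsingleton
  have hle : ∀ σ : Strat1 I J, ∀ θ : Strat2 I J,
      G.payoff ω n z σ θ ≤ W (fun z a => fld G ω z a + C) (stp G) z n / n - C := by
    intro σ θ
    have h1 := hg.2 ⟨hist σ θ n, length_hist σ θ n, rfl⟩
    rw [pay_add_const, length_hist] at h1
    rw [payoff_eq, le_sub_iff_add_le, div_add' _ _ _ hn'.ne', div_le_div_iff_of_pos_right hn']
    exact h1
  obtain ⟨θ0⟩ : Nonempty (Strat2 I J) := inferInstance
  have hle' : ∀ σ : Strat1 I J, (⨅ θ : Strat2 I J, G.payoff ω n z σ θ) ≤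
      W (fun z a => fld G ω z a + C) (stp G) z n / n - C := fun σ =>
    (ciInf_le (Set.finite_range _).bddBelow θ0).trans (hle σ θ0)
  refine le_antisymm (ciSup_le hle') ?_
  obtain ⟨l, hl, hlW⟩ := hg.1
  obtain ⟨σ, hσ⟩ := exists_strat1 l
  refine le_trans (le_ciInf fun θ => ?_) (le_ciSup ⟨_, by
    rintro r ⟨σ', rfl⟩
    exact hle' σ'⟩ σ)
  have h2 := hσ θ
  rw [hl] at h2
  rw [payoff_eq, h2, ← hlW, pay_add_const, hl]
  rw [add_div, mul_div_assoc, div_self hn'.ne']
  linarith

theorem value_min [Finite I] [Nonempty I] [Finite J] [Nonempty J] [Subsingleton I]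
    (G : PercolationGame d I J P) (ω : Ω) {n : ℕ} (hn : 1 ≤ n) (z : Fin d → ℤ) (C : ℝ) :
    G.value ω n z = C - W (fun z a => C - fld G ω z a) (stp G) z n / n := by
  have hn' : (0 : ℝ) < n := by exact_mod_cast hn
  have hg := W_greatest (fun z a => C - fld G ω z a) (stp G) z n
  have hfin : Finite (Strat1 I J) := Finite.of_subsingleton
  have hle : ∀ σ : Strat1 I J, ∀ θ : Strat2 I J,
      C - W (fun z a => C - fld G ω z a) (stp G) z n / n ≤ G.payoff ω n z σ θ := by
    intro σ θ
    have h1 := hg.2 ⟨hist σ θ n, length_hist σ θ n, rfl⟩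
    rw [pay_const_sub, length_hist] at h1
    rw [payoff_eq, sub_le_iff_le_add, ← add_div, le_div_iff₀ hn']
    linarith
  obtain ⟨l, hl, hlW⟩ := hg.1
  obtain ⟨θ, hθ⟩ := exists_strat2 l
  obtain ⟨σ0⟩ : Nonempty (Strat1 I J) := inferInstance
  refine le_antisymm (ciSup_le fun σ => ?_) ?_
  · refine (ciInf_le ⟨_, by
      rintro r ⟨θ', rfl⟩
      exact hle σ θ'⟩ θ).trans ?_
    have h2 := hθ σ
    rw [hl] at h2
    rw [payoff_eq, h2, ← hlW, pay_const_sub, hl, sub_div, mul_div_assoc, div_self hn'.ne']
    linarith
  · exact (le_ciInf fun θ' => hle σ0 θ').trans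
      (le_ciSup (f := fun σ => ⨅ θ' : Strat2 I J, G.payoff ω n z σ θ')
        (Set.finite_range _).bddAbove σ0)

/-- the almost sure convergence of the best average payoff, for i.i.d. vectors of payoffs in
`[0, B]` -/
theorem ae_conv {A : Type} [Finite A] [Nonempty A] [IsProbabilityMeasure P]
    (F : Ω → (Fin d → ℤ) → A → ℝ) (hm : ∀ z, Measurable fun ω => F ω z)
    (hind : iIndepFun (fun (z : Fin d → ℤ) (ω : Ω) => F ω z) P)
    (hid : ∀ z z' : Fin d → ℤ, IdentDistrib (fun ω => F ω z) (fun ω => F ω z') P P)
    {B : ℝ} (h0 : ∀ ω z a, 0 ≤ F ω z a) (hB : ∀ ω z a, F ω z a ≤ B) (s : A → (Fin d → ℤ))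
    (z : Fin d → ℤ) :
    ∀ᵐ ω ∂P, ∃ v : ℝ, Tendsto (fun n : ℕ => W (F ω) s z n / n) atTop (𝓝 v) := by
  classical
  have := Fintype.ofFinite A
  obtain ⟨a0⟩ := (inferInstance : Nonempty A)
  obtain ⟨ω0⟩ : Nonempty Ω := nonempty_of_isProbabilityMeasure P
  have hB0 : 0 ≤ B := (h0 ω0 0 a0).trans (hB ω0 0 a0)
  set ν : Measure (A → ℝ) := P.map (fun ω => F ω 0) with hν
  have hνp : IsProbabilityMeasure ν := Measure.isProbabilityMeasure_map (hm 0).aemeasurable
  have hmF : Measurable F := measurable_pi_lambda _ hm
  have hlaw : P.map F = Measure.infinitePi fun _ : Fin d → ℤ => ν := by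
    have h1 := (iIndepFun_iff_map_fun_eq_infinitePi_map hm).1 hind
    have h2 : (fun z : Fin d → ℤ => P.map fun ω => F ω z) = fun _ => ν := by
      funext z
      exact (hid z 0).map_eq
    rw [h2] at h1
    exact h1
  have h3 := ae_lim ν s z hB0
  rw [← hlaw] at h3
  filter_upwards [ae_of_ae_map hmF.aemeasurable h3] with ω hω
  rw [cut_eq (h0 ω) (hB ω)] at hω
  exact det (h0 ω) (hB ω) z hω (W (F ω) s z) (W_greatest (F ω) s z)

theorem hasLimitValue [Finite I] [Nonempty I] [Finite J] [Nonempty J] [IsProbabilityMeasure P]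
    (G : PercolationGame d I J P) (hG : G.IID) (h1 : G.OnePlayer) : G.HasLimitValue := by
  intro z
  obtain ⟨C, hC⟩ := G.g_bdd
  obtain ⟨hind, hid⟩ := hG
  have hgm : ∀ z, Measurable fun ω => G.g ω z := fun z =>
    measurable_pi_lambda _ fun i => measurable_pi_lambda _ fun j => G.g_meas z i j
  rcases h1 with h1 | h1
  · have hs : Subsingleton I := (Nat.card_eq_one_iff_unique.1 h1).1
    set φ : (I → J → ℝ) → (I × J → ℝ) := fun f a => C - f a.1 a.2 with hφ
    have hφm : Measurable φ := measurable_pi_lambda _ fun a =>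
      measurable_const.sub ((measurable_pi_apply a.2).comp (measurable_pi_apply a.1))
    have hconv := ae_conv (P := P) (B := 2 * C) (fun ω z a => C - fld G ω z a)
      (fun z => hφm.comp (hgm z)) (hind.comp (fun _ => φ) fun _ => hφm)
      (fun z z' => (hid z z').comp hφm)
      (fun ω z a => by have := (abs_le.1 (hC ω z a.1 a.2)).2; simp only [fld]; linarith)
      (fun ω z a => by have := (abs_le.1 (hC ω z a.1 a.2)).1; simp only [fld]; linarith)
      (stp G) z
    filter_upwards [hconv] with ω ⟨v, hv⟩
    refine ⟨C - v, (tendsto_const_nhds.sub hv).congr' ?_⟩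
    filter_upwards [eventually_ge_atTop 1] with n hn
    exact (value_min G ω hn z C).symm
  · have hs : Subsingleton J := (Nat.card_eq_one_iff_unique.1 h1).1
    set φ : (I → J → ℝ) → (I × J → ℝ) := fun f a => f a.1 a.2 + C with hφ
    have hφm : Measurable φ := by
      refine measurable_pi_lambda _ fun a => ?_
      have h2 : Measurable fun f : I → J → ℝ => f a.1 a.2 :=
        (measurable_pi_apply a.2).comp (measurable_pi_apply a.1)
      exact h2.add_const C
    have hconv := ae_conv (P := P) (B := 2 * C) (fun ω z a => fld G ω z a + C)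
      (fun z => hφm.comp (hgm z)) (hind.comp (fun _ => φ) fun _ => hφm)
      (fun z z' => (hid z z').comp hφm)
      (fun ω z a => by have := (abs_le.1 (hC ω z a.1 a.2)).1; simp only [fld]; linarith)
      (fun ω z a => by have := (abs_le.1 (hC ω z a.1 a.2)).2; simp only [fld]; linarith)
      (stp G) z
    filter_upwards [hconv] with ω ⟨v, hv⟩
    refine ⟨v - C, (hv.sub tendsto_const_nhds).congr' ?_⟩
    filter_upwards [eventually_ge_atTop 1] with n hn
    exact (value_max G ω hn z C).symm

end main

end Pool.Agent.U517.PG
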