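import Pool.Agent.U517.PG.Core

/-!
# One-player games with i.i.d. payoffs: the almost sure limits in each class of words
-/

set_option autoImplicit false

namespace Pool.Agent.U517.PG

open MeasureTheory ProbabilityTheory Filter Topology

/-- the payoffs cut off at `0` and `B` -/
def cut {S A : Type} (B : ℝ) (x : S → A → ℝ) : S → A → ℝ := fun z a => max 0 (min (x z a) B)

theorem cut_nonneg {S A : Type} (B : ℝ) (x : S → A → ℝ) (z : S) (a : A) : 0 ≤ cut B x z a :=
  le_max_left _ _

theorem cut_le {S A : Type} {B : ℝ} (hB : 0 ≤ B) (x : S → A → ℝ) (z : S) (a : A) :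
    cut B x z a ≤ B := max_le hB (min_le_right _ _)

theorem cut_eq {S A : Type} {B : ℝ} {x : S → A → ℝ} (h0 : ∀ z a, 0 ≤ x z a)
    (hB : ∀ z a, x z a ≤ B) : cut B x = x := by
  funext z a
  unfold cut
  rw [min_eq_left (hB z a), max_eq_right (h0 z a)]

variable {A : Type} {d : ℕ}

theorem measurable_pay (B : ℝ) (s : A → (Fin d → ℤ)) (l : List A) (z : Fin d → ℤ) :
    Measurable fun x : (Fin d → ℤ) → A → ℝ => pay (cut B x) s z l := by
  induction l generalizing z with
  | nil => exact measurable_const
  | cons a l ih =>
    have h1 : Measurable fun x : (Fin d → ℤ) → A → ℝ => cut B x z a := by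
      have h2 : Measurable fun x : (Fin d → ℤ) → A → ℝ => x z a :=
        (measurable_pi_apply a).comp (measurable_pi_apply z)
      exact measurable_const.max (h2.min measurable_const)
    exact h1.add (ih _)

theorem measurable_best [DecidableEq A] (B : ℝ) (s : A → (Fin d → ℤ)) (z : Fin d → ℤ)
    (M : Multiset A) :
    Measurable fun x : (Fin d → ℤ) → A → ℝ => best (cut B x) s z M := by
  have h : (fun x : (Fin d → ℤ) → A → ℝ => best (cut B x) s z M) =
      (words M).sup' (words_nonempty M) fun l x => pay (cut B x) s z l := by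
    funext x
    rw [Finset.sup'_apply]
    rfl
  rw [h]
  exact Finset.measurable_sup' _ fun l _ => measurable_pay B s l z

theorem ae_lim [Finite A] [DecidableEq A] (ν : Measure (A → ℝ)) [IsProbabilityMeasure ν]
    (s : A → (Fin d → ℤ)) (z : Fin d → ℤ) {B : ℝ} (hB : 0 ≤ B) :
    ∀ᵐ x ∂(Measure.infinitePi fun _ : Fin d → ℤ => ν), ∀ M : Multiset A, M ≠ 0 →
      ∃ y : ℝ, Tendsto (fun m : ℕ => best (cut B x) s z (m • M) / m) atTop (𝓝 y) := by
  rw [ae_all_iff]
  intro M
  set w : Fin d → ℤ := (M.map s).sum with hw
  have hwk : ∀ k : ℕ, ((k • M).map s).sum = k • w := by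
    intro k
    rw [Multiset.map_nsmul, Multiset.sum_nsmul]
  have hsup : ∀ (x : (Fin d → ℤ) → A → ℝ) (k l : ℕ),
      best (cut B x) s z (k • M) + best (cut B x) s (z + k • w) (l • M) ≤
        best (cut B x) s z ((k + l) • M) := by
    intro x k l
    have h := best_add (cut B x) s z (k • M) (l • M)
    rwa [hwk, ← add_nsmul] at h
  by_cases hw0 : w = 0
  · refine Eventually.of_forall fun x _ => ?_
    have hsub : Subadditive fun m : ℕ => -best (cut B x) s z (m • M) := by
      intro k l
      have h := hsup x k l
      rw [hw0, smul_zero, add_zero] at h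
      linarith
    have hbdd : BddBelow (Set.range fun n : ℕ => -best (cut B x) s z (n • M) / n) := by
      refine ⟨-(B * M.card), ?_⟩
      rintro r ⟨n, rfl⟩
      rcases Nat.eq_zero_or_pos n with rfl | hn
      · simp
        positivity
      · have hn' : (0 : ℝ) < n := by exact_mod_cast hn
        simp only
        rw [le_div_iff₀ hn']
        have h := best_le (s := s) (cut_le hB x) z (n • M)
        rw [Multiset.card_nsmul] at h
        push_cast at h
        linarith
    have h := hsub.tendsto_lim hbdd
    refine ⟨-hsub.lim, ?_⟩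
    have h2 := h.neg
    refine h2.congr fun n => ?_
    rw [neg_div, neg_neg]
  · set T : ((Fin d → ℤ) → A → ℝ) → ((Fin d → ℤ) → A → ℝ) :=
      Pool.Agent.Y560.BE.cm (Equiv.addRight w) with hT
    have hit : ∀ (v : Fin d → ℤ) (k : ℕ) (u : Fin d → ℤ),
        (Equiv.addRight v)^[k] u = u + k • v := by
      intro v k
      induction k with
      | zero => intro u; simp
      | succ k ih =>
        intro u
        rw [Function.iterate_succ_apply', ih, succ_nsmul]
        simp [add_assoc]
    have htf : ∀ (v : Fin d → ℤ), v ≠ 0 → ∀ k : ℕ, (k + 1) • v ≠ 0 := by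
      intro v hv k h
      apply hv
      funext i
      have h1 := congrFun h i
      simp only [Pi.smul_apply, Pi.zero_apply, smul_eq_zero] at h1
      rcases h1 with h1 | h1
      · omega
      · exact h1
    have herg : ∀ v : Fin d → ℤ, v ≠ 0 →
        Ergodic (Pool.Agent.Y560.BE.cm (Z := A → ℝ) (Equiv.addRight v))
          (Measure.infinitePi fun _ : Fin d → ℤ => ν) := by
      intro v hv
      refine Pool.Agent.Y560.BE.erg_cm ν (Equiv.addRight v)
        (Pool.Agent.Y560.BE.move_off _ fun i n h => ?_)
      rw [hit] at h
      exact htf v hv n (by simpa using h)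
    have hTk : ∀ k : ℕ, T^[k] = Pool.Agent.Y560.BE.cm (Equiv.addRight (k • w)) := by
      intro k
      funext x
      rw [hT, Pool.Agent.Y560.BE.cm_iter]
      funext u
      rw [hit]
      rfl
    have hk := Pool.Agent.R975.King.kingman (m := Measure.infinitePi fun _ : Fin d → ℤ => ν)
      (T := T) (L := fun n x => best (cut B x) s z (n • M)) (B := B * M.card) (herg w hw0)
      (fun k hk => by
        rw [hTk]
        refine herg _ ?_
        obtain ⟨j, rfl⟩ : ∃ j, k = j + 1 := ⟨k - 1, by omega⟩
        exact htf w hw0 j)
      (fun n => measurable_best B s z _)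
      (fun n x => best_nonneg (cut_nonneg B x) z _)
      (fun n x => by
        have h := best_le (s := s) (cut_le hB x) z (n • M)
        rw [Multiset.card_nsmul] at h
        push_cast at h
        linarith)
      (fun k l x => by
        have h := hsup x k l
        have h2 : best (cut B (T^[k] x)) s z (l • M) = best (cut B x) s (z + k • w) (l • M) := by
          rw [hTk]
          exact best_shift (cut B x) s (k • w) z (l • M)
        rw [h2]
        exact h)
    obtain ⟨γ, hγ⟩ := hk
    filter_upwards [hγ] with x hx _
    exact ⟨γ, hx⟩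

end Pool.Agent.U517.PG
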